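import Pool.Agent.Q48.RD.Fam
import Pool.Agent.TH464.PW.Quad

/-!
# `m ^ 2 + 1` at several linear forms with large coefficients, at integers with restricted digits

We consider systems of `k` numbers `m_j ^ 2 + 1`, where `m_j = a_j n + b_j` with `a_j ≥ 1`, `b_j ≥ 0`. The system is admissible if no
prime divides the product of the numbers `(a_j n + b_j) ^ 2 + 1` for all `n`. Examples are `m ^ 2 + 1` for the `m` in a residue class,
the pairs `m ^ 2 + 1`, `(m + h) ^ 2 + 1` for an even `h` and all dilates `(a_j m) ^ 2 + 1`.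

Let `g ≥ 2` be a base and `K` a large number of digits. For every `i < K` let `A i` be an arbitrary set of digits, such that the number
`|A 0| ⋯ |A (K - 1)|` of the integers `t < g ^ K` whose `i`-th digit belongs to `A i` for all `i < K` is at least `exp (- c K) g ^ K`,
where `c > 0` does not depend on the base (`Rich`).

(1) For all admissible systems with `a_j, b_j ≤ g ^ (E K)` (so the coefficients may be as large as an arbitrary power of the number of
the `n`, and the `n` may be in the interval `[0, g ^ K)` or, changing the `b_j`, in any other interval of this length) the number of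
the `n < g ^ K` with these digits for which all `(a_j n + b_j) ^ 2 + 1` have at most `r` prime factors, all larger than `g ^ (K / r)`,
is at least `κ V |A 0| ⋯ |A (K - 1)|`, if there is a digit `d` in `A 0` such that all these numbers are prime to `g` for `n = d`; the
number of the `n` with these digits for which all these numbers are primes is at most `C V |A 0| ⋯ |A (K - 1)|`. Here `V` is the
product of `1 - ν (p) / p` over the primes `p ≤ g ^ K`, where `ν (p)` is the number of the `n` modulo `p` such that `p` divides one of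
the numbers: the order of magnitude which Hardy and Littlewood predict. The constants do not depend on the system and on the sets `A i`.

(2) For a fixed admissible system of different forms the same holds for `n = N + t`, for all `N ≤ g ^ (E K)` and the `t < g ^ K` with
these digits, with `1 / K ^ k` in the place of `V`.
-/

set_option autoImplicit false

namespace Pool.Agent.Results.MP_f1a94e_nt.FormsRestrictedDigits

open Filter Finset Polynomial
open Pool.Agent.Q315.RD Pool.Agent.Q48.RD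

/-- `m ^ 2 + 1` for `m = a n + b`. -/
def value (a b n : ℕ) : ℕ := (a * n + b) ^ 2 + 1

/-- No prime divides, for every `n`, one of the numbers `(a_j n + b_j) ^ 2 + 1`. -/
def Admissible {k : ℕ} (a b : Fin k → ℕ) : Prop := ∀ p : ℕ, p.Prime → ∃ n : ℕ, ∀ j, ¬ p ∣ value (a j) (b j) n

/-- The product of `1 - ν (p) / p` over the primes `p ≤ y`, `ν (p)` the number of the `n < p` such that `p` divides one of the numbers
`(a_j n + b_j) ^ 2 + 1`. -/
noncomputable def V {k : ℕ} (a b : Fin k → ℕ) (y : ℕ) : ℝ := density (fun j => value (a j) (b j)) y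

/-- the polynomials -/
noncomputable def P {k : ℕ} (a b : Fin k → ℕ) (j : Fin k) : ℤ[X] :=
  Pool.Agent.TH464.PW.quad ((a j : ℤ) ^ 2) (2 * (a j : ℤ) * (b j : ℤ)) ((b j : ℤ) ^ 2 + 1)

lemma P_eval {k : ℕ} (a b : Fin k → ℕ) (j : Fin k) (n : ℕ) : (P a b j).eval (n : ℤ) = (value (a j) (b j) n : ℤ) := by
  unfold P value
  rw [Pool.Agent.TH464.PW.quad_eval]
  push_cast
  ring

lemma P_deg {k : ℕ} (a b : Fin k → ℕ) (ha : ∀ j, 1 ≤ a j) (j : Fin k) : (P a b j).natDegree ≤ 2 :=
  (Pool.Agent.TH464.PW.quad_deg _ _ _ (by have := ha j; positivity)).le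

lemma low (a b N t : ℕ) (ha : 1 ≤ a) : t ≤ value a b (N + t) := by
  unfold value
  have h1 : a * (N + t) + b ≤ (a * (N + t) + b) ^ 2 := Nat.le_self_pow (by norm_num) _
  have h2 : N + t ≤ a * (N + t) := Nat.le_mul_of_pos_left _ ha
  omega

lemma high {E K g N a b t : ℕ} (hg : 2 ≤ g) (hK : 1 ≤ K) (hN : N ≤ g ^ (E * K)) (ha : a ≤ g ^ (E * K)) (hb : b ≤ g ^ (E * K))
    (ht : t < g ^ K) : value a b (N + t) ≤ g ^ ((4 * E + 8) * K) := by
  have hg1 : 1 ≤ g := by omega
  have h1 : g ^ (E * K) ≤ g ^ ((E + 1) * K) := Nat.pow_le_pow_right hg1 (by nlinarith)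
  have h2 : g ^ K ≤ g ^ ((E + 1) * K) := Nat.pow_le_pow_right hg1 (by nlinarith)
  have h0 : 1 ≤ g ^ ((E + 1) * K) := Nat.one_le_pow _ _ hg1
  have h3 : 10 ≤ g ^ (4 * K) := by
    calc 10 ≤ 2 ^ 4 := by norm_num
      _ ≤ 2 ^ (4 * K) := Nat.pow_le_pow_right (by norm_num) (by omega)
      _ ≤ g ^ (4 * K) := Nat.pow_le_pow_left hg _
  have h4 : a * (N + t) + b ≤ 3 * (g ^ ((E + 1) * K)) ^ 2 := by
    calc a * (N + t) + b ≤ g ^ ((E + 1) * K) * (g ^ ((E + 1) * K) + g ^ ((E + 1) * K)) + g ^ ((E + 1) * K) * g ^ ((E + 1) * K) :=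
          Nat.add_le_add (Nat.mul_le_mul (by omega) (by omega)) (by nlinarith)
      _ = 3 * (g ^ ((E + 1) * K)) ^ 2 := by ring
  unfold value
  calc (a * (N + t) + b) ^ 2 + 1 ≤ (3 * (g ^ ((E + 1) * K)) ^ 2) ^ 2 + (g ^ ((E + 1) * K)) ^ 4 :=
        Nat.add_le_add (Nat.pow_le_pow_left h4 2) (Nat.one_le_pow _ _ h0)
    _ = 10 * (g ^ ((E + 1) * K)) ^ 4 := by ring
    _ ≤ g ^ (4 * K) * (g ^ ((E + 1) * K)) ^ 4 := Nat.mul_le_mul_right _ h3
    _ = g ^ ((4 * E + 8) * K) := by rw [← pow_mul, ← pow_add]; congr 1; ring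

/-- A fixed admissible system is a system in the sense of the starting library. -/
lemma sys {k : ℕ} (a b : Fin k → ℕ) (ha : ∀ j, 1 ≤ a j) (hinj : ∀ i j, a i = a j → b i = b j → i = j)
    (hadm : Admissible a b) : Pool.Agent.W123.RU.Poly.Sys (P a b) where
  irr j := by
    have ha0 : (1 : ℤ) ≤ a j := by exact_mod_cast ha j
    apply Pool.Agent.TH464.PW.quad_irr _ _ _ (by positivity)
    · rintro p hp ⟨h1, h2, h3⟩
      obtain ⟨n, hn⟩ := hadm p hp
      apply hn j
      rw [← Int.natCast_dvd_natCast, ← P_eval]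
      unfold P
      rw [Pool.Agent.TH464.PW.quad_eval]
      exact dvd_add (dvd_add (h1.mul_right _) (h2.mul_right _)) h3
    · rintro ⟨z, hz⟩
      nlinarith [mul_self_nonneg z, sq_nonneg ((a j : ℤ) * b j)]
  deg j := by
    unfold P
    have ha0 : (1 : ℤ) ≤ a j := by exact_mod_cast ha j
    rw [Pool.Agent.TH464.PW.quad_deg _ _ _ (by positivity)]
    norm_num
  lead j := by
    unfold P
    have ha0 : (1 : ℤ) ≤ a j := by exact_mod_cast ha j
    rw [Pool.Agent.TH464.PW.quad_lead _ _ _ (by positivity)]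
    positivity
  inj := by
    intro i j hij
    have h0 : (P a b i).eval ((0 : ℕ) : ℤ) = (P a b j).eval ((0 : ℕ) : ℤ) := by rw [hij]
    have h1 : (P a b i).eval ((1 : ℕ) : ℤ) = (P a b j).eval ((1 : ℕ) : ℤ) := by rw [hij]
    rw [P_eval, P_eval] at h0 h1
    unfold value at h0 h1
    have h0' : (a i * 0 + b i) ^ 2 + 1 = (a j * 0 + b j) ^ 2 + 1 := by exact_mod_cast h0
    have h1' : (a i * 1 + b i) ^ 2 + 1 = (a j * 1 + b j) ^ 2 + 1 := by exact_mod_cast h1
    have h2 : a i * 0 + b i = a j * 0 + b j := Nat.pow_left_injective (n := 2) (by norm_num) (by simp only; omega)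
    have h3 : a i * 1 + b i = a j * 1 + b j := Nat.pow_left_injective (n := 2) (by norm_num) (by simp only; omega)
    exact hinj i j (by omega) (by omega)
  adm p hp := by
    obtain ⟨n, hn⟩ := hadm p hp
    refine ⟨n, fun j hd => hn j ?_⟩
    rw [P_eval] at hd
    exact Int.natCast_dvd_natCast.1 hd

/-- **`m ^ 2 + 1` at linear forms with large coefficients, at integers with restricted digits.** -/
theorem result (k E : ℕ) :
    ∃ c : ℝ, 0 < c ∧ ∃ r₀ : ℕ, 2 ≤ r₀ ∧ ∀ r : ℕ, r₀ ≤ r → ∀ g : ℕ, 2 ≤ g →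
      (∃ κ C : ℝ, 0 < κ ∧ 0 < C ∧
        ∀ᶠ K : ℕ in atTop, ∀ a b : Fin k → ℕ, (∀ j, 1 ≤ a j ∧ a j ≤ g ^ (E * K) ∧ b j ≤ g ^ (E * K)) → Admissible a b →
          ∀ A : ℕ → Finset ℕ, Rich c g K A →
            ((∃ d ∈ A 0, ∀ j, (value (a j) (b j) d).Coprime g) →
              κ * V a b (g ^ K) * choices K A ≤ count g K A fun n => ∀ j, AlmostPrime (g ^ K) r (value (a j) (b j) n)) ∧
            (count g K A (fun n => ∀ j, (value (a j) (b j) n).Prime) : ℝ) ≤ C * V a b (g ^ K) * choices K A) ∧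
      ∀ a b : Fin k → ℕ, (∀ j, 1 ≤ a j) → (∀ i j, a i = a j → b i = b j → i = j) → Admissible a b →
        ∃ κ C : ℝ, 0 < κ ∧ 0 < C ∧ ∀ᶠ K : ℕ in atTop, ∀ N : ℕ, N ≤ g ^ (E * K) → ∀ A : ℕ → Finset ℕ, Rich c g K A →
            ((∃ d ∈ A 0, ∀ j, (value (a j) (b j) (N + d)).Coprime g) →
              κ * choices K A / (K : ℝ) ^ k ≤
                count g K A fun t => ∀ j, AlmostPrime (g ^ K) r (value (a j) (b j) (N + t))) ∧
            (count g K A (fun t => ∀ j, (value (a j) (b j) (N + t)).Prime) : ℝ) ≤ C * choices K A / (K : ℝ) ^ k := by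
  obtain ⟨c, hc, r₀, hr₀, h⟩ := famN k 2 (4 * (E + 1) + 8)
  refine ⟨c, hc, r₀, hr₀, fun r hr g hg => ?_⟩
  obtain ⟨κ, C, hκ, hC, h1⟩ := h r hr g hg
  have main : ∀ᶠ K : ℕ in atTop, ∀ a b : Fin k → ℕ,
          (∀ j, 1 ≤ a j ∧ a j ≤ g ^ ((E + 1) * K) ∧ b j ≤ g ^ ((E + 1) * K)) →
          Admissible a b → ∀ N : ℕ, N ≤ g ^ ((E + 1) * K) → ∀ A : ℕ → Finset ℕ, Rich c g K A →
            ((∃ d ∈ A 0, ∀ j, (value (a j) (b j) (N + d)).Coprime g) →
              κ * V a b (g ^ K) * choices K A ≤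
                count g K A fun t => ∀ j, AlmostPrime (g ^ K) r (value (a j) (b j) (N + t))) ∧
            (count g K A (fun t => ∀ j, (value (a j) (b j) (N + t)).Prime) : ℝ) ≤ C * V a b (g ^ K) * choices K A := by
    filter_upwards [h1, eventually_ge_atTop 1] with K hK hK1
    intro a b hab hadm N hN A hA
    exact hK (P a b) (fun j => value (a j) (b j)) (P_eval a b) (P_deg a b fun j => (hab j).1) hadm N
      (fun t _ j => low _ _ _ _ (hab j).1) (fun t ht j => high hg hK1 hN (hab j).2.1 (hab j).2.2 ht) A hA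
  have hpow : ∀ K : ℕ, g ^ (E * K) ≤ g ^ ((E + 1) * K) := fun K => Nat.pow_le_pow_right (by omega) (by nlinarith)
  refine ⟨⟨κ, C, hκ, hC, ?_⟩, fun a b ha hinj hadm => ?_⟩
  · filter_upwards [main] with K hK
    intro a b hab hadm A hA
    have h2 := hK a b (fun j => ⟨(hab j).1, (hab j).2.1.trans (hpow K), (hab j).2.2.trans (hpow K)⟩) hadm 0 (Nat.zero_le _) A hA
    simpa only [Nat.zero_add] using h2
  obtain ⟨w, W, hw, hW, h2⟩ := order (P a b) (sys a b ha hinj hadm) g hg
  refine ⟨κ * w, C * W, by positivity, by positivity, ?_⟩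
  filter_upwards [main, h2, eventually_ge_atTop (1 + ∑ j, (a j + b j))] with K hK hV hK1
  intro N hN A hA
  have hden := density_fam (P a b) (fun j => value (a j) (b j)) (P_eval a b) (g ^ K)
  rw [hden] at hV
  have hcs : (0 : ℝ) ≤ choices K A := Nat.cast_nonneg _
  have hKg : K < g ^ ((E + 1) * K) :=
    lt_of_lt_of_le (Nat.lt_pow_self (by omega)) (Nat.pow_le_pow_right (by omega) (by nlinarith))
  have huK : ∀ j, a j + b j ≤ K := fun j => by
    have := single_le_sum (f := fun j => a j + b j) (fun _ _ => Nat.zero_le _) (mem_univ j)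
    omega
  obtain ⟨h3, h4⟩ := hK a b (fun j => by have := huK j; have := ha j; omega) hadm N (hN.trans (hpow K)) A hA
  constructor
  · intro hd
    refine le_trans ?_ (h3 hd)
    calc κ * w * choices K A / (K : ℝ) ^ k = κ * (w / (K : ℝ) ^ k) * choices K A := by ring
      _ ≤ κ * V a b (g ^ K) * choices K A :=
          mul_le_mul_of_nonneg_right (mul_le_mul_of_nonneg_left hV.1 hκ.le) hcs
  · refine h4.trans ?_
    calc C * V a b (g ^ K) * choices K A ≤ C * (W / (K : ℝ) ^ k) * choices K A :=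
          mul_le_mul_of_nonneg_right (mul_le_mul_of_nonneg_left hV.2 hC.le) hcs
      _ = C * W * choices K A / (K : ℝ) ^ k := by ring

end Pool.Agent.Results.MP_f1a94e_nt.FormsRestrictedDigits
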