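import Mathlib
import Pool.Agent.Q53.NP.Fin

/-!
# Narrow progressions of arguments of prime values of `n² + 1`

For `n² + 1`, and for every system of irreducible polynomials without a fixed prime divisor, the number of
the progressions of `k` terms with a difference up to `D ≥ log ^ B X` of arguments of prime values in an
interval of length `X` is bounded above by the expected order, and it is of this order if and only if the
number of the arguments of prime values is; all but few of them lie on such progressions, and for almost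
prime values both orders are right.

Proof: the theorem of Szemerédi relative to sifted sets (starting files `Pool.Agent.Y843.HS`, `AC`), the
mean value of the number of roots of polynomials modulo primes (`Pool.Agent.W123.RU.PolyV`) and the
fundamental lemma; see `Pool.Agent.Q53.NP`.
-/

set_option autoImplicit false

namespace Pool.Agent.Results.MP_f1a94e_nt.NarrowProgressions

open Finset Polynomial

/-- distinct irreducible polynomials of positive degree with positive leading coefficients, such that no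
prime divides the product of their values at all natural numbers -/
structure Admissible {r : ℕ} (f : Fin r → ℤ[X]) : Prop where
  irreducible : ∀ i, Irreducible (f i)
  degree : ∀ i, 0 < (f i).natDegree
  leading : ∀ i, 0 < (f i).leadingCoeff
  distinct : Function.Injective f
  noFixedPrime : ∀ p : ℕ, p.Prime → ∃ m : ℕ, ∀ i, ¬ (p : ℤ) ∣ (f i).eval (m : ℤ)

/-- all `|f_i(n)|` are primes, or no `f_i(n)` has a prime factor `≤ X ^ (1 / u)` -/
def Good {r : ℕ} (f : Fin r → ℤ[X]) (u X n : ℕ) : Prop :=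
  (∀ i, ((f i).eval (n : ℤ)).natAbs.Prime) ∨
    ∀ p : ℕ, p.Prime → (p : ℝ) ≤ (X : ℝ) ^ (1 / (u : ℝ)) → ∀ i, ¬ (p : ℤ) ∣ (f i).eval (n : ℤ)

/-- `m ≠ 0` is up to the sign a product of at most `j` primes, all of them larger than `w` -/
def AlmostPrime (j : ℕ) (w : ℝ) (m : ℤ) : Prop :=
  m ≠ 0 ∧ m.natAbs.primeFactorsList.length ≤ j ∧ ∀ q : ℕ, q.Prime → (q : ℤ) ∣ m → w < q

open Classical in
/-- the progressions `a, a + d, …, a + (k - 1) d` in `S` with `1 ≤ d ≤ D`, as pairs `(a, d)` -/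
noncomputable def progressions (k D : ℕ) (S : Finset ℕ) : Finset (ℕ × ℕ) :=
  (S ×ˢ Icc 1 D).filter (fun q => ∀ j < k, q.1 + j * q.2 ∈ S)

/-- `n` is a term of a progression of `k` terms in `S` with a difference at most `w` -/
def OnProgression (k : ℕ) (w : ℝ) (S : Finset ℕ) (n : ℕ) : Prop :=
  ∃ a d : ℕ, 1 ≤ d ∧ (d : ℝ) ≤ w ∧ (∀ j < k, a + j * d ∈ S) ∧ ∃ j < k, n = a + j * d

open Classical in
/-- the `n ≤ x` for which all `|f_i(n)|` are primes -/
noncomputable def primeArguments {r : ℕ} (f : Fin r → ℤ[X]) (x : ℕ) : Finset ℕ :=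
  (Ioc 0 x).filter (fun n : ℕ => ∀ i, ((f i).eval (n : ℤ)).natAbs.Prime)

open Classical in
/-- the `n` of `(y, y + X]` for which all `|f_i(n)|` are products of at most `j` primes `> X ^ (1 / j)` -/
noncomputable def almostPrimeArguments {r : ℕ} (f : Fin r → ℤ[X]) (j y X : ℕ) : Finset ℕ :=
  (Ioc y (y + X)).filter
    (fun n : ℕ => ∀ i, AlmostPrime j ((X : ℝ) ^ (1 / (j : ℝ))) ((f i).eval (n : ℤ)))

theorem sys {r : ℕ} {f : Fin r → ℤ[X]} (hf : Admissible f) : Pool.Agent.W123.RU.Poly.Sys f :=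
  ⟨hf.irreducible, hf.degree, hf.leading, hf.distinct, hf.noFixedPrime⟩

theorem pa_eq {r : ℕ} (f : Fin r → ℤ[X]) (x : ℕ) :
    primeArguments f x = Pool.Agent.Q53.NP.PV f x := by
  classical
  ext n
  simp only [primeArguments, Pool.Agent.Q53.NP.PV, mem_filter]

theorem pr_eq (k D : ℕ) (S : Finset ℕ) : progressions k D S = Pool.Agent.Y843.AC.APs k D S := rfl

/-- `n² + 1` -/
noncomputable def sq1 : Fin 1 → ℤ[X] := fun _ => X ^ 2 + 1

theorem sq1_irr : Irreducible (X ^ 2 + 1 : ℤ[X]) := by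
  have hm : (X ^ 2 + 1 : ℤ[X]).Monic := by
    have : (X ^ 2 + 1 : ℤ[X]) = X ^ 2 + C 1 := by simp
    rw [this]
    exact monic_X_pow_add_C 1 (by norm_num)
  rw [hm.irreducible_iff_natDegree']
  have hd : (X ^ 2 + 1 : ℤ[X]).natDegree = 2 := by
    have : (X ^ 2 + 1 : ℤ[X]) = X ^ 2 + C 1 := by simp
    rw [this]
    exact natDegree_X_pow_add_C
  refine ⟨?_, ?_⟩
  · intro h
    rw [h, natDegree_one] at hd
    omega
  · intro f g hf hg hfg hg2
    rw [hd, mem_Ioc] at hg2
    have h1 : g.natDegree = 1 := by omega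
    have h2 : g = X + C (g.coeff 0) := hg.eq_X_add_C h1
    have h3 : (X ^ 2 + 1 : ℤ[X]).eval (-(g.coeff 0)) = 0 := by
      rw [← hfg, eval_mul]
      have : g.eval (-(g.coeff 0)) = 0 := by
        conv_lhs => rw [h2]
        simp
      rw [this, mul_zero]
    have h4 : (g.coeff 0) ^ 2 + 1 = 0 := by
      have : (X ^ 2 + 1 : ℤ[X]).eval (-(g.coeff 0)) = (g.coeff 0) ^ 2 + 1 := by simp
      rw [← this, h3]
    nlinarith [sq_nonneg (g.coeff 0)]

theorem sq1_sys : Admissible sq1 := by
  have hd : (X ^ 2 + 1 : ℤ[X]).natDegree = 2 := by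
    have : (X ^ 2 + 1 : ℤ[X]) = X ^ 2 + C 1 := by simp
    rw [this]
    exact natDegree_X_pow_add_C
  have hm : (X ^ 2 + 1 : ℤ[X]).Monic := by
    have : (X ^ 2 + 1 : ℤ[X]) = X ^ 2 + C 1 := by simp
    rw [this]
    exact monic_X_pow_add_C 1 (by norm_num)
  refine ⟨fun _ => sq1_irr, fun _ => ?_, fun _ => ?_, Function.injective_of_subsingleton _, ?_⟩
  · show 0 < (X ^ 2 + 1 : ℤ[X]).natDegree
    omega
  · show 0 < (X ^ 2 + 1 : ℤ[X]).leadingCoeff
    rw [hm.leadingCoeff]
    exact one_pos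
  · intro p hp
    refine ⟨0, fun _ h => ?_⟩
    have h1 : (p : ℤ) ∣ 1 := by
      have h2 : (sq1 0).eval ((0 : ℕ) : ℤ) = 1 := by simp [sq1]
      have h3 := h
      have h4 : (p : ℤ) ∣ (sq1 0).eval ((0 : ℕ) : ℤ) := h3
      rwa [h2] at h4
    have h5 : p ∣ 1 := by exact_mod_cast h1
    exact hp.one_lt.ne' (Nat.dvd_one.1 h5)

/-- `n² + 1` is admissible (`r = 1`). Let `f` be an admissible system of `r` polynomials (for instance
`n² + 1`, `r = 1`), `k ≥ 1` and `u ≥ 2`.

(1) There are `C, B, X₀` such that for all `X ≥ X₀`, all `y` and all `D ≥ log ^ B X`: a set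
`S ⊆ (y, y + X]` of good integers (for instance with all `|f_i(n)|` primes) contains at most
`C X D / log ^ (r k) X` progressions of `k` terms with a difference at most `D`.

(2) For every `δ > 0` there are `c > 0`, `B`, `X₀` such that for all `X ≥ X₀`, all `y` and all
`log ^ B X ≤ D ≤ X`: if such a set `S` has at least `δ X / log ^ r X` elements, it contains at least
`c X D / log ^ (r k) X` such progressions; if it contains at least `δ X D / log ^ (r k) X` of them, it has at
least `c X / log ^ r X` elements.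

(3) For every `δ > 0` there are `B, X₀` such that for all `X ≥ X₀` and all `y`: all but at most
`δ X / log ^ r X` elements of such a set `S` are terms of progressions of `k` terms in `S` with a difference
at most `log ^ B X`.

(4) For every `E` there are `j ≥ 1`, `c > 0`, `B`, `X₀` such that for all `X ≥ X₀`, all `y ≤ X ^ E` and all
`log ^ B X ≤ D ≤ X`: the set of the `n` of `(y, y + X]`, for which all `|f_i(n)|` are products of at most `j`
primes, all larger than `X ^ (1 / j)`, has at least `c X / log ^ r X` elements and contains at least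
`c X D / log ^ (r k) X` progressions of `k` terms with a difference at most `D`.

(5) The number of the `n ≤ x` for which all `|f_i(n)|` are primes is at least `c x / log ^ r x` for all
large `x`, for some `c > 0`, if and only if for some `c > 0` and `B` the number of the progressions of `k`
terms with a difference at most `D` of such `n` is at least `c x D / log ^ (r k) x` for all large `x` and all
`log ^ B x ≤ D ≤ x`. -/
theorem result :
    Admissible sq1 ∧
    ∀ (r : ℕ) (f : Fin r → ℤ[X]), Admissible f → ∀ k u : ℕ, 1 ≤ k → 2 ≤ u →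
    (∃ C : ℝ, 0 < C ∧ ∃ B X₀ : ℕ, ∀ X : ℕ, X₀ ≤ X → ∀ y D : ℕ, Real.log X ^ B ≤ D →
      ∀ S : Finset ℕ, S ⊆ Ioc y (y + X) → (∀ n ∈ S, Good f u X n) →
      ((progressions k D S).card : ℝ) ≤ C * (X * D / Real.log X ^ (r * k))) ∧
    (∀ δ : ℝ, 0 < δ → ∃ c : ℝ, 0 < c ∧ ∃ B X₀ : ℕ, ∀ X : ℕ, X₀ ≤ X → ∀ y D : ℕ,
      Real.log X ^ B ≤ D → D ≤ X → ∀ S : Finset ℕ, S ⊆ Ioc y (y + X) → (∀ n ∈ S, Good f u X n) →
      (δ * (X / Real.log X ^ r) ≤ S.card →
        c * (X * D / Real.log X ^ (r * k)) ≤ ((progressions k D S).card : ℝ)) ∧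
      (δ * (X * D / Real.log X ^ (r * k)) ≤ ((progressions k D S).card : ℝ) →
        c * (X / Real.log X ^ r) ≤ S.card)) ∧
    (∀ δ : ℝ, 0 < δ → ∃ B X₀ : ℕ, ∀ X : ℕ, X₀ ≤ X → ∀ y : ℕ, ∀ S : Finset ℕ, S ⊆ Ioc y (y + X) →
      (∀ n ∈ S, Good f u X n) → ∃ T ⊆ S, (T.card : ℝ) ≤ δ * (X / Real.log X ^ r) ∧
        ∀ n ∈ S, n ∉ T → OnProgression k (Real.log X ^ B) S n) ∧
    (∀ E : ℕ, ∃ j : ℕ, 1 ≤ j ∧ ∃ c : ℝ, 0 < c ∧ ∃ B X₀ : ℕ, ∀ X : ℕ, X₀ ≤ X → ∀ y : ℕ, y ≤ X ^ E →
      ∀ D : ℕ, Real.log X ^ B ≤ D → D ≤ X →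
      c * (X / Real.log X ^ r) ≤ ((almostPrimeArguments f j y X).card : ℝ) ∧
      c * (X * D / Real.log X ^ (r * k)) ≤
        ((progressions k D (almostPrimeArguments f j y X)).card : ℝ)) ∧
    ((∃ c : ℝ, 0 < c ∧ ∃ x₀ : ℕ, ∀ x : ℕ, x₀ ≤ x →
      c * (x / Real.log x ^ r) ≤ ((primeArguments f x).card : ℝ)) ↔
    (∃ c : ℝ, 0 < c ∧ ∃ B x₀ : ℕ, ∀ x : ℕ, x₀ ≤ x → ∀ D : ℕ, Real.log x ^ B ≤ D → D ≤ x →
      c * (x * D / Real.log x ^ (r * k)) ≤ ((progressions k D (primeArguments f x)).card : ℝ))) := by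
  classical
  refine ⟨sq1_sys, fun r f hf k u hk hu => ?_⟩
  have hs := sys hf
  have hcard : Fintype.card (Fin r) = r := Fintype.card_fin r
  obtain ⟨h1, h2⟩ := Pool.Agent.Q53.NP.main f hs k u hk hu
  rw [hcard] at h1 h2
  refine ⟨h1, h2, ?_, ?_, ?_⟩
  · intro δ hδ
    obtain ⟨B, X₀, h⟩ := Pool.Agent.Q53.NP.almost_all f hs k u hk hu hδ
    rw [hcard] at h
    refine ⟨B, X₀, fun X hX y S hS hG => ⟨S.filter (fun n =>
      ¬ OnProgression k (Real.log X ^ B) S n), filter_subset _ _, ?_, ?_⟩⟩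
    · refine le_trans (le_of_eq ?_) (h X hX y S hS hG)
      congr
    · intro n hn hnT
      rw [mem_filter, not_and, not_not] at hnT
      exact hnT hn
  · intro E
    obtain ⟨j, hj, c, hc, B, X₀, h⟩ := Pool.Agent.Q53.NP.almost_primes f hs k hk E
    rw [hcard] at h
    refine ⟨j, hj, c, hc, B, X₀, fun X hX y hy D hD hDX => ?_⟩
    have h5 : almostPrimeArguments f j y X = Pool.Agent.Q53.NP.AV f j y X := by
      ext n
      rw [Pool.Agent.Q53.NP.mem_AV]
      unfold almostPrimeArguments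
      rw [mem_filter]
      rfl
    rw [h5, pr_eq]
    exact h X hX y hy D hD hDX
  · have h := Pool.Agent.Q53.NP.equiv f hs k hk
    rw [hcard] at h
    simp only [pa_eq, pr_eq]
    exact h

end Pool.Agent.Results.MP_f1a94e_nt.NarrowProgressions
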