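import Pool.Agent.Q48.RD.PMom
import Pool.Agent.TH464.PW.Quad

/-!
# Simultaneous primes `m ^ 2 + 1` at several linear arguments `m = c_j n + d_j`, in short intervals

Let `l ≥ 2` and let `m_j = c_j n + d_j` (`c_j ≥ 1`, `d_j ≥ 0`) be linear arguments, no two of them integer translates of each other
(for example `c_1 < c_2 < … < c_l` and arbitrary `d_j`), for which the polynomials `m_j ^ 2 + 1` have no fixed prime divisor. We count the
`n` in `(x, x + T]` for which ALL the numbers `m_1 ^ 2 + 1, …, m_l ^ 2 + 1` are primes (or almost primes).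

Let `g ≥ 2` be a base and `K` a large number of digits. For every `i < K` let `A i` be an arbitrary set of digits, such that the number
`|A 0| ⋯ |A (K - 1)|` of the integers `t < g ^ K` whose `i`-th digit belongs to `A i` for all `i < K` is at least `exp (- δ K) g ^ K`.
Let `N ≤ g ^ (E K)` be arbitrary. We consider the numbers `x = N + t` with these `t`: they form a set with only
`y ^ (1 - δ')` elements in an interval of length `y = g ^ K`, which may be an arbitrarily small power of `x`.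

Let `k ≥ 1` and `T ≤ g ^ (E K)`. The conjecture of Bateman and Horn for the `k l` polynomials `(c_j (x + h_i) + d_j) ^ 2 + 1`, averaged
over the shifts `h_1, …, h_k ≤ T`, predicts that the mean value of the `k`-th power of this number has the order of magnitude of
`(T / K ^ l) ^ k` for `T ≥ K ^ l` and of `T / K ^ l` for `T ≤ K ^ l`. We prove

(1) the upper bound of this order for the primes, for `x` in all these sets;

(2) the exact order of magnitude for the almost primes;

(3) that a positive proportion (for `T ≤ K ^ l`: the expected proportion `T / K ^ l`) of the intervals `(x, x + T]` contains the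
expected number of such `n`, with almost primes.
-/

set_option autoImplicit false

namespace Pool.Agent.Results.MP_f1a94e_nt.SimultaneousPrimeValues

open Filter Finset
open Pool.Agent.Q315.RD Pool.Agent.Q48.RD
open Pool.Agent.TH464.PW (quad quad_irr quad_deg quad_lead quad_eval)

/-- The arguments `m_j = c_j n + d_j` are admissible: `c_j ≥ 1`, no two of them are integer translates of each other
(`c_i (n + t) + d_i = c_j n + d_j` for all `n`), and for no prime `p` is the product of the `m_j ^ 2 + 1` divisible by `p` for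
all `n`. -/
structure Admissible {l : ℕ} (c d : Fin l → ℕ) : Prop where
  pos : ∀ j, 1 ≤ c j
  notTranslates : ∀ i j, i ≠ j → c i = c j → ∀ t : ℤ, (d i : ℤ) ≠ d j + c j * t
  noFixedPrime : ∀ p : ℕ, p.Prime → ∃ n : ℕ, ∀ j, ¬ p ∣ (c j * n + d j) ^ 2 + 1

/-- The number of the `n` with `x < n ≤ x + T` for which all the numbers `(c_j n + d_j) ^ 2 + 1` are primes. -/
def primesIn {l : ℕ} (c d : Fin l → ℕ) (x T : ℕ) : ℕ := ((Ioc x (x + T)).filter fun n => ∀ j, ((c j * n + d j) ^ 2 + 1).Prime).card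

open Classical in
/-- The number of the `n` with `x < n ≤ x + T` for which all the numbers `(c_j n + d_j) ^ 2 + 1` have at most `r` prime factors, all
larger than `y ^ (1 / r)`. -/
noncomputable def almostPrimesIn (y r : ℕ) {l : ℕ} (c d : Fin l → ℕ) (x T : ℕ) : ℕ :=
  ((Ioc x (x + T)).filter fun n => ∀ j, AlmostPrime y r ((c j * n + d j) ^ 2 + 1)).card

open Classical in
/-- The integers `t < g ^ K` whose `i`-th digit belongs to `A i` for all `i < K`. -/
noncomputable def digitSet (g K : ℕ) (A : ℕ → Finset ℕ) : Finset ℕ := (range (g ^ K)).filter (HasDigits g K A)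

/-- The predicted order of magnitude of the mean value of the `k`-th power: `T / K ^ l` for `T ≤ K ^ l` and `(T / K ^ l) ^ k` for
`T ≥ K ^ l`. -/
noncomputable def order (l k T K : ℕ) : ℝ := min 1 ((T : ℝ) / (K : ℝ) ^ l) * max 1 ((T : ℝ) / (K : ℝ) ^ l) ^ k

/-- **Simultaneous primes `(c_j n + d_j) ^ 2 + 1` in short intervals.** -/
theorem result {l : ℕ} (_hl : 2 ≤ l) (c d : Fin l → ℕ) (h : Admissible c d) (k : ℕ) (hk : 1 ≤ k) (E : ℕ) :
    ∃ δ : ℝ, 0 < δ ∧ ∃ r₀ : ℕ, 2 ≤ r₀ ∧ ∀ r : ℕ, r₀ ≤ r → ∀ g : ℕ, 2 ≤ g → ∃ κ C : ℝ, 0 < κ ∧ 0 < C ∧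
      ∀ᶠ K : ℕ in atTop, ∀ N T : ℕ, N ≤ g ^ (E * K) → 1 ≤ T → T ≤ g ^ (E * K) →
        ∀ A : ℕ → Finset ℕ, (∀ i < K, A i ⊆ range g) → (g : ℝ) ^ K ≤ Real.exp (δ * K) * choices K A →
        -- the primes
        ∑ t ∈ digitSet g K A, (primesIn c d (N + t) T : ℝ) ^ k ≤ C * order l k T K * choices K A ∧
        -- the almost primes
        ∑ t ∈ digitSet g K A, (almostPrimesIn (g ^ K) r c d (N + t) T : ℝ) ^ k ≤ C * order l k T K * choices K A ∧
        (g ≤ T →
          κ * order l k T K * choices K A ≤ ∑ t ∈ digitSet g K A, (almostPrimesIn (g ^ K) r c d (N + t) T : ℝ) ^ k ∧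
          κ * min 1 ((T : ℝ) / (K : ℝ) ^ l) * choices K A ≤
            (((digitSet g K A).filter fun t => κ * max 1 ((T : ℝ) / (K : ℝ) ^ l) ≤ almostPrimesIn (g ^ K) r c d (N + t) T).card : ℝ)) := by
  classical
  have hcz : ∀ j, (0 : ℤ) < c j := fun j => by exact_mod_cast h.pos j
  have hpos : ∀ j, (0 : ℤ) < (c j : ℤ) ^ 2 := fun j => by have := hcz j; positivity
  have heval : ∀ j (n : ℤ), (quad ((c j : ℤ) ^ 2) (2 * c j * d j) ((d j : ℤ) ^ 2 + 1)).eval n = (c j * n + d j) ^ 2 + 1 := by
    intro j n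
    rw [quad_eval]; ring
  have hg : ∀ j, ∀ p : ℕ, p.Prime → ¬ ((p : ℤ) ∣ ((c j : ℤ) ^ 2) ∧ (p : ℤ) ∣ 2 * c j * d j ∧ (p : ℤ) ∣ (d j : ℤ) ^ 2 + 1) := by
    intro j p hp hh
    obtain ⟨n, hn⟩ := h.noFixedPrime p hp
    refine hn j ?_
    have h1 : (p : ℤ) ∣ (c j : ℤ) ^ 2 * n ^ 2 + 2 * c j * d j * n + ((d j : ℤ) ^ 2 + 1) :=
      ((hh.1.mul_right _).add (hh.2.1.mul_right _)).add hh.2.2
    have h2 : (c j : ℤ) ^ 2 * n ^ 2 + 2 * c j * d j * n + ((d j : ℤ) ^ 2 + 1) = (((c j * n + d j) ^ 2 + 1 : ℕ) : ℤ) := by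
      push_cast; ring
    rw [h2] at h1
    exact_mod_cast h1
  have hlead : ∀ j, (quad ((c j : ℤ) ^ 2) (2 * c j * d j) ((d j : ℤ) ^ 2 + 1)).leadingCoeff = (c j : ℤ) ^ 2 :=
    fun j => quad_lead _ _ _ (hpos j).ne'
  -- two polynomials which agree up to an integer translation have arguments which agree up to this translation
  have hkey : ∀ i j (t : ℤ), (∀ n : ℤ, (c i * n + d i : ℤ) ^ 2 + 1 = (c j * (n + t) + d j) ^ 2 + 1) → c i = c j ∧ (d i : ℤ) = d j + c j * t := by
    intro i j t H
    have h1 := hcz i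
    have h2 := hcz j
    have H0 := H 0
    have H1 := H 1
    have H2 := H 2
    have hc2 : (c i : ℤ) ^ 2 = (c j : ℤ) ^ 2 := by linarith
    have hcc : (c i : ℤ) = c j := by nlinarith
    have hcd : (c j : ℤ) * d i = c j * (d j + c j * t) := by rw [hcc] at H0 H1; linarith
    exact ⟨by exact_mod_cast hcc, mul_left_cancel₀ h2.ne' hcd⟩
  obtain ⟨δ, hδ, r0, hr0, H⟩ := polyMoments (fun j => quad ((c j : ℤ) ^ 2) (2 * c j * d j) ((d j : ℤ) ^ 2 + 1))
    { irr := fun j => quad_irr _ _ _ (hpos j).ne' (hg j) (by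
        rintro ⟨z, hz⟩
        have h1 : 0 ≤ z * z := mul_self_nonneg z
        have := hpos j
        have h3 : (2 * (c j : ℤ) * d j) ^ 2 - 4 * (c j : ℤ) ^ 2 * ((d j : ℤ) ^ 2 + 1) = - (4 * (c j : ℤ) ^ 2) := by ring
        rw [h3] at hz
        omega)
      deg := fun j => by rw [quad_deg _ _ _ (hpos j).ne']; norm_num
      lead := fun j => by rw [hlead]; exact hpos j
      inj := fun i j hij => by
        by_contra hne
        have hij' : quad ((c i : ℤ) ^ 2) (2 * c i * d i) ((d i : ℤ) ^ 2 + 1) = quad ((c j : ℤ) ^ 2) (2 * c j * d j) ((d j : ℤ) ^ 2 + 1) := hij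
        have h1 := hkey i j 0 fun n => by rw [add_zero, ← heval i n, ← heval j n, hij']
        exact h.notTranslates i j hne h1.1 0 h1.2
      adm := fun p hp => by
        obtain ⟨n, hn⟩ := h.noFixedPrime p hp
        refine ⟨n, fun j hh => hn j ?_⟩
        rw [heval] at hh
        exact_mod_cast hh }
    (fun i j hij t hh => by
      have h1 := hkey i j t fun n => by
        have h2 := congrArg (Polynomial.eval n) hh
        rw [Polynomial.eval_comp, Polynomial.eval_add, Polynomial.eval_X, Polynomial.eval_C, heval, heval] at h2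
        exact h2
      exact h.notTranslates i j hij h1.1 t h1.2)
    (fun j n => (c j * n + d j) ^ 2 + 1) 0 (fun j n _ => by rw [heval]; push_cast; ring)
    (fun j n _ => by
      have h1 := h.pos j
      have h2 : n ≤ c j * n := Nat.le_mul_of_pos_left n h1
      nlinarith [Nat.zero_le (d j)]) k hk E
  refine ⟨δ, hδ, r0, hr0, fun r hr g hg => ?_⟩
  obtain ⟨κ, C, hκ, hC, H⟩ := H r hr g hg
  refine ⟨κ, C, hκ, hC, ?_⟩
  filter_upwards [H] with K HK
  intro N T hN hT1 hT A hA1 hA2
  obtain ⟨h1, h2, h3⟩ := HK N T (Nat.zero_le _) hN hT1 hT A ⟨hA1, hA2⟩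
  have e1 : ∀ x, primesIn c d x T = numIn (fun n => ∀ j, ((c j * n + d j) ^ 2 + 1).Prime) x T := by
    intro x
    unfold primesIn numIn
    congr!
  have e2 : ∀ x, almostPrimesIn (g ^ K) r c d x T = numIn (fun n => ∀ j, AlmostPrime (g ^ K) r ((c j * n + d j) ^ 2 + 1)) x T := by
    intro x
    unfold almostPrimesIn numIn
    congr!
  simp only [e1, e2]
  refine ⟨h1, h2, fun hgT => ⟨(h3 hgT).1, (h3 hgT).2.trans (le_of_eq ?_)⟩⟩
  unfold count digitSet
  rw [filter_filter]

end Pool.Agent.Results.MP_f1a94e_nt.SimultaneousPrimeValues
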