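import Pool.Agent.Q25.GReg8

/-!
# Narrow progressions in ARBITRARY sets of `n ≡ b mod q` with `n² + 1` prime, uniformly in all moduli

For all large `x`, ALL `q`, all `b` with `b² + 1` prime to `q`, all intervals `(u, u + H]` with `q x ^ θ ≤ H ≤ x` and EVERY set
`A` of integers `n ≡ b mod q` such that `n² + 1` has no prime factor `≤ x ^ (1/r)` (for example any set of `n ≡ b mod q` for
which `n² + 1` is a prime `> x ^ (1/r)`): all elements of `A` in the interval, with at most `ε (H / q) V` exceptions, are terms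
of `l`-term progressions contained in the set and in the interval whose difference is `q d` with `1 ≤ d ≤ (log x) ^ B`. For
large `r` and `q ≤ x ^ E` with `q / φ(q)` bounded the number of such `n` is `(H / q) V` up to `ε`.
-/

set_option autoImplicit false

namespace Pool.Agent.Results.MP_f1a94e_nt.UniformProgressions

open Finset

/-- `n² + 1` has no prime factor `≤ x ^ (1 / r)` -/
def Rough (r x n : ℕ) : Prop := ∀ p : ℕ, p.Prime → (p : ℝ) ≤ (x : ℝ) ^ (1 / (r : ℝ)) → ¬ p ∣ n ^ 2 + 1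

/-- the number of the `n` modulo `p` with `p ∣ n² + 1` -/
def nu (p : ℕ) : ℕ := ((range p).filter (fun n => p ∣ n ^ 2 + 1)).card

/-- the product of `1 - ν(p) / p` over the primes `p ≤ x ^ (1/r)` not dividing `q` -/
noncomputable def V (q r x : ℕ) : ℝ :=
  ∏ p ∈ (Icc 1 ⌊(x : ℝ) ^ (1 / (r : ℝ))⌋₊).filter (fun p => p.Prime ∧ ¬ p ∣ q), (1 - (nu p : ℝ) / p)

/-- `n` is a term of an `l`-term arithmetic progression contained in `A ∩ (u, v]`, with difference `q d`, `1 ≤ d ≤ D` -/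
def OnProgression (A : Set ℕ) (l q : ℕ) (D : ℝ) (u v n : ℕ) : Prop :=
  ∃ m d : ℕ, 1 ≤ d ∧ (d : ℝ) ≤ D ∧ (∀ i < l, m + i * (q * d) ∈ A ∧ u < m + i * (q * d) ∧ m + i * (q * d) ≤ v) ∧
    ∃ i < l, n = m + i * (q * d)

/-- all elements of `A` in `(u, v]` with at most `t` exceptions are terms of such progressions -/
def NearlyAll (A : Set ℕ) (l q : ℕ) (D : ℝ) (u v : ℕ) (t : ℝ) : Prop :=
  ({n : ℕ | u < n ∧ n ≤ v ∧ n ∈ A ∧ ¬ OnProgression A l q D u v n}.ncard : ℝ) ≤ t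

lemma size {E : ℝ} (hE : 0 < E) {X : ℕ} (hX : 9 ≤ X) {q b : ℕ} (h1 : (q : ℝ) ≤ (X : ℝ) ^ E) (h2 : (b : ℝ) ≤ (X : ℝ) ^ E) :
    ((q : ℝ) + b + 1) ^ 2 ≤ (X : ℝ) ^ (2 * E + 1) := by
  have hX0 : (0 : ℝ) < X := by exact_mod_cast (by omega : 0 < X)
  have hX9 : (9 : ℝ) ≤ X := by exact_mod_cast hX
  have h3 : (1 : ℝ) ≤ (X : ℝ) ^ E := Real.one_le_rpow (by linarith) hE.le
  have e : (X : ℝ) ^ (2 * E + 1) = X * ((X : ℝ) ^ E) ^ 2 := by
    rw [Real.rpow_add hX0, Real.rpow_one, mul_comm 2 E, Real.rpow_mul hX0.le]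
    norm_cast
    ring
  rw [e]
  calc ((q : ℝ) + b + 1) ^ 2 ≤ (3 * (X : ℝ) ^ E) ^ 2 := by
        apply pow_le_pow_left₀ (by positivity)
        linarith
    _ = 9 * ((X : ℝ) ^ E) ^ 2 := by ring
    _ ≤ X * ((X : ℝ) ^ E) ^ 2 := by gcongr

open Classical in
/-- Let `l ≥ 1` and `θ, ε > 0`. (1) For every `r ≥ 1` there are `B`, `x₀` such that for all `x ≥ x₀`, ALL moduli `q ≥ 1`, all
`b` with `b² + 1` prime to `q`, all intervals `(u, u + H]` with `q x ^ θ ≤ H ≤ x` and EVERY set `A` of integers `n ≡ b mod q`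
for which `n² + 1` has no prime factor `≤ x ^ (1/r)`: all elements of `A` in `(u, u + H]` with at most `ε (H / q) V`
exceptions are terms of `l`-term progressions in `A ∩ (u, u + H]` with a difference `q d`, `1 ≤ d ≤ (log x) ^ B`. (2) For
`E > 0` and all `r ≥ r₀` and `K`, for all large `x`, all `q, b ≤ x ^ E` with `b² + 1` prime to `q` and `q ≤ K φ(q)`, and all
`(Z, Z + Y]` with `Y ≥ x ^ θ`: the number of the `m` in `(Z, Z + Y]` for which `(q m + b)² + 1` has no prime factor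
`≤ x ^ (1/r)` is `Y V` up to `ε Y V`. -/
theorem result (l : ℕ) (hl : 1 ≤ l) (θ ε : ℝ) (hθ : 0 < θ) (hε : 0 < ε) :
    (∀ r : ℕ, 1 ≤ r → ∃ B x₀ : ℕ, ∀ x : ℕ, x₀ ≤ x → ∀ q b : ℕ, 1 ≤ q → (b ^ 2 + 1).Coprime q →
      ∀ u H : ℕ, q * (x : ℝ) ^ θ ≤ H → H ≤ x → ∀ A : Set ℕ, (∀ n ∈ A, n ≡ b [MOD q] ∧ Rough r x n) →
        NearlyAll A l q (Real.log x ^ B) u (u + H) (ε * (H / q * V q r x))) ∧
    (∀ E : ℝ, 0 < E → ∃ r₀ : ℕ, ∀ r : ℕ, r₀ ≤ r → ∀ K : ℝ, ∃ x₀ : ℕ, ∀ x : ℕ, x₀ ≤ x → ∀ q b : ℕ, 1 ≤ q →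
      (b ^ 2 + 1).Coprime q → (q : ℝ) ≤ (x : ℝ) ^ E → (b : ℝ) ≤ (x : ℝ) ^ E → (q : ℝ) ≤ K * q.totient →
        ∀ Z Y : ℕ, (x : ℝ) ^ θ ≤ Y →
          |(((Ioc Z (Z + Y)).filter (fun m => Rough r x (q * m + b))).card : ℝ) - Y * V q r x| ≤ ε * (Y * V q r x)) := by
  refine ⟨fun r hr => ?_, fun E hE => ?_⟩
  · obtain ⟨B, x₀, h⟩ := Pool.Agent.Q25.GReg.narrowS hl r hr hθ hε
    refine ⟨B, x₀, fun x hx q b hq hc u H hH hHx A hA => ?_⟩
    have h1 := h x hx q b hq hc u H hH hHx A hA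
    unfold NearlyAll
    refine le_trans (le_of_eq ?_) h1
    rw [← Set.ncard_coe_finset]
    congr 2
    ext n
    unfold Pool.Agent.Q25.GReg.Lone OnProgression
    rw [mem_coe, mem_filter, mem_Ioc]
    simp only [Set.mem_ofPred_eq]
    tauto
  · obtain ⟨r₀, hr₀, h⟩ := Pool.Agent.Q25.UReg.poly_laws 1 2 (2 * E + 1) 1 θ (by positivity) one_pos hθ 1 1 ε hε
    refine ⟨r₀, fun r hr K => ?_⟩
    obtain ⟨M, X₁, hM⟩ := Pool.Agent.Q25.GReg.VS_small r (by omega) K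
    obtain ⟨X₂, hX₂⟩ := Filter.eventually_atTop.1 (h r hr M)
    refine ⟨max (max X₁ X₂) 9, fun X hX q b hq hc h1 h2 h3 Z Y hY => ?_⟩
    have hV : Pool.Agent.Q25.UReg.VP (Pool.Agent.Q25.GReg.fS q b) r X = V q r X := Pool.Agent.Q25.GReg.VP_fS hc r X
    have hG : ∀ m, Pool.Agent.Q25.UReg.GoodP (Pool.Agent.Q25.GReg.fS q b) r X m ↔ Rough r X (q * m + b) := by
      intro m
      unfold Pool.Agent.Q25.UReg.GoodP Rough
      simp only [Pool.Agent.Q25.GReg.fS_eval]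
      constructor
      · intro g p hp hpX hd
        exact g p hp hpX 0 (by exact_mod_cast hd)
      · intro g p hp hpX i hd
        exact g p hp hpX (by exact_mod_cast hd)
    obtain ⟨g1, g2⟩ := hX₂ X (((le_max_right _ _).trans (le_max_left _ _)).trans hX) _
      (Pool.Agent.Q25.GReg.fS_sys hq hc (size hE ((le_max_right _ _).trans hX) h1 h2))
      (hM X (((le_max_left _ _).trans (le_max_left _ _)).trans hX) q b hq hc h3)
      (Pool.Agent.Q25.GReg.fS_noTr b hq _) Z Y hY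
    have h7 := g2 1 0 (Or.inl le_rfl)
    rw [hV] at h7
    have e1 : ((Ioc Z (Z + Y)).filter (fun n => Pool.Agent.Q25.UReg.GoodP (Pool.Agent.Q25.GReg.fS q b) r X n ∧
        ((Ico (n - 0) n).filter (fun m => Pool.Agent.Q25.UReg.GoodP (Pool.Agent.Q25.GReg.fS q b) r X m)).card < 1)) =
        (Ioc Z (Z + Y)).filter (fun n => Rough r X (q * n + b)) := by
      ext n
      simp only [mem_filter, hG]
      simp
    have e2 : ∑ j ∈ range 1, Pool.Agent.Q25.UReg.pois (((0 : ℕ) : ℝ) * V q r X) j = 1 := by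
      simp [Pool.Agent.Q25.UReg.pois]
    rw [e1, e2, mul_one] at h7
    exact h7

end Pool.Agent.Results.MP_f1a94e_nt.UniformProgressions
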